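import Pool.Agent.Lib.MP_f8720a_ag.HK.Main
import Pool.Agent.Lib.MP_f8720a_ag.HK.ExH

/-!
# The monodromy-weight conjecture over a log point and derivations of the cohomology algebra

An inhabitant of the hypotheses, with `N ≠ 0`: `HK.exists_example`. The case in which `g` acts
faithfully on one `H j` as the orthogonal Lie algebra of a nondegenerate form: `HK.ActsAsSo.pm`.
-/

namespace Pool.Agent.Results.MP_f8720a_ag.DerivationCriterion

open Pool.Agent.MP_f8720a_ag.HK

/-- Let `H j`, `j ∈ J`, be log cohomology groups of a projective SNCL scheme with their weight spaces
and monodromy operators (`LogCoh`), and let `h` be the operator weight minus degree. Let `g` be a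
space of families of endomorphisms of the `H j` which contains `h` and is stable under
`Y ↦ Y N - N Y`, for example the derivations of degree zero of the cohomology algebra which kill the
trace. Let `I` be a set of degrees such that the form `(Y, Z) ↦ ∑ tr (Y Z | H i)`, `i ∈ I`, is
nondegenerate on `g`, and assume for `i ∈ I` that the weight filtration of `H i` is the monodromy
filtration, or that this holds for a group of a linear section in which `H i` is contained and the
weights `deg i + e` and `deg i - e` of `H i` have the same multiplicity for all `e`. Then the weight
filtration of every `H j` is the monodromy filtration. -/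
theorem result :
    ∀ (F J : Type) [Field F] [CharZero F] [Fintype J] (H : J → Type) [∀ j, AddCommGroup (H j)]
      [∀ j, Module F (H j)] [∀ j, FiniteDimensional F (H j)] (X : LogCoh F H)
      (g : Submodule F (∀ j, Module.End F (H j))) (I : Finset J), X.Stable g →
      TraceNondeg g I → (∀ i ∈ I, X.PM i ∨ X.SymSection i) → ∀ j, X.PM j := by
  intro F J _ _ _ H _ _ _ X g I hg hT hI j
  exact X.crit_pm g I hg (fun i hi => (hI i hi).elim id fun h => h.pm) hT j

end Pool.Agent.Results.MP_f8720a_ag.DerivationCriterion
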