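import Pool.Agent.Lib.MP_f8720a_ag.OuterLem
import Pool.Agent.Lib.MP_f8720a_ag.Ex

/-!
# The outermost step of the monodromy-weight conjecture over a log point

An inhabitant of the structures: `Ex` (a degenerate abelian surface with three components).
-/

namespace Pool.Agent.Results.MP_f8720a_ag.ExtremeSteps

open Pool.Agent.MP_f8720a_ag

/-- **The outermost step of the monodromy-weight conjecture.** For a polarised strata datum, the
map `E_2^{-q,2q} → E_2^{q,0}` is bijective, `q = m + 1`; so for `H = H^q` with these outermost
graded pieces `P_0` is the image and `P_(2q-1)` the kernel of `N ^ q`, and `Outer N P q q`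
holds. -/
theorem result :
    ∀ (S : Strata) (D : Numbers S), D.IsPolarised → ∀ (m : ℕ) (F : Type) [Field F] [CharZero F],
      Bij (D.harm F m) (S.cocyc F m) (S.cobd F m) ∧
      ∀ (H : Type) [AddCommGroup H] [Module F H] (N : Module.End F H) (P : ℤ → Submodule F H)
        (q : ℕ), q = m + 1 → IsWeight N q P →
          Nonempty (Induces N P q q (D.harm F m) (S.cocyc F m) (S.cobd F m)) →
          P 0 = LinearMap.range (N ^ q) ∧ P (2 * q - 1) = LinearMap.ker (N ^ q) ∧
          Outer N P q q := by
  intro S D hD m F _ _
  refine ⟨D.bij_harm hD m, ?_⟩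
  intro H _ _ N P q hq hP hI
  obtain ⟨w⟩ := hI
  have hs : StepIso N P q q := w.stepIso N hP.step (D.bij_harm hD m)
  exact ⟨(hP.outer hs).1, (hP.outer hs).2, outer_of hP q (by omega) (hP.all_of hs)⟩

end Pool.Agent.Results.MP_f8720a_ag.ExtremeSteps
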