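import Pool.Agent.Lib.MP_f8720a_ag.OuterLem
import Pool.Agent.Lib.MP_f8720a_ag.Half
import Pool.Agent.Lib.MP_f8720a_ag.Frob
import Pool.Agent.Lib.MP_f8720a_ag.Ex
import Pool.Agent.Lib.MP_f8720a_ag.CurveEx
import Pool.Agent.Lib.MP_f8720a_ag.FrobEx

/-!
# The step `e = q - 1` of the monodromy-weight conjecture over a log point

Inhabitants of the structures: `Ex` (a degenerate abelian surface with three components),
`CurveEx` and `FrobEx`.
-/

namespace Pool.Agent.Results.MP_f8720a_ag.PenultimateStep

open Pool.Agent.MP_f8720a_ag

/-- **The step `e = q - 1` of the monodromy-weight conjecture**, `2 ≤ q ≤ d`, `q = m + 1`. For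
Rosati data the map `E_2^{-(q-1),2q-1} → E_2^{q-1,1}` is injective. It is bijective if the product with
`A ^ (n - 2)`, `n = d - q + 2`, is injective on the Gysin image in the third cohomology of the strata
of dimension `n` (`LefInj`; automatic for `q = d`), and, given `FrobData`, if the Frobenius
eigenvalues are simple on a subspace `P` of this cohomology which contains `core` and on which the
form `A ^ (n - 3) . t . t'` is nondegenerate (`MultOne`), for example on the primitive part. So for
`H = H^q` with the graded pieces `gr_(2q-1)` and `gr_1` given by these terms, `N ^ (q - 1)` is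
injective between them, it is an isomorphism if and only if their dimensions agree, and it is one if
`Bij` holds. If it is one and the outermost graded pieces are given by a polarised strata datum, then
the steps `e ≥ q - 1` hold; in particular `P` is the monodromy filtration of `N` if `q = 2`. -/
theorem result :
    ∀ (F E U V W T : Type) [Field F] [CharZero F] [Ring E] [Algebra ℚ E] [StarRing E]
      [AddCommGroup U] [Module F U] [AddCommGroup V] [Module F V] [AddCommGroup W] [Module F W]
      [AddCommGroup T] [Module F T] (C : RosatiData F E U V W T),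
      (∀ a ∈ LinearMap.ker C.G ⊓ LinearMap.ker C.r, a ∈ LinearMap.range C.δ → a = 0) ∧
      (C.LefInj →
        Bij (LinearMap.ker C.G ⊓ LinearMap.ker C.r) (LinearMap.ker C.r) (LinearMap.range C.δ)) ∧
      (∀ (D : FrobData C) (P : Submodule F T), C.core ≤ P → Nonempty (MultOne D.ΦT D.BT P) →
        Bij (LinearMap.ker C.G ⊓ LinearMap.ker C.r) (LinearMap.ker C.r) (LinearMap.range C.δ)) ∧
      ∀ (H : Type) [AddCommGroup H] [Module F H] (N : Module.End F H) (P : ℤ → Submodule F H)
        (m q : ℕ), 1 ≤ m → q = m + 1 → IsWeight N q P →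
          Nonempty (Induces N P q m (LinearMap.ker C.G ⊓ LinearMap.ker C.r)
            (LinearMap.ker C.r) (LinearMap.range C.δ)) →
          (∀ x ∈ P (q + m), (N ^ m) x ∈ P (q - m - 1) → x ∈ P (q + m - 1)) ∧
          (StepIso N P q m ↔
            Module.finrank F (Gr P (q + m)) = Module.finrank F (Gr P (q - m))) ∧
          (Bij (LinearMap.ker C.G ⊓ LinearMap.ker C.r) (LinearMap.ker C.r)
            (LinearMap.range C.δ) → StepIso N P q m) ∧
          ∀ (S : Strata) (D : Numbers S), D.IsPolarised →
            Nonempty (Induces N P q q (D.harm F m) (S.cocyc F m) (S.cobd F m)) →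
            StepIso N P q m → (∀ e : ℕ, m ≤ e → StepIso N P q e) ∧ (q = 2 → IsMonodromy N q P) := by
  intro F E U V W T _ _ _ _ _ _ _ _ _ _ _ _ _ C
  have hfin := C.finV
  have hinj : ∀ a ∈ LinearMap.ker C.G ⊓ LinearMap.ker C.r, a ∈ LinearMap.range C.δ → a = 0 :=
    fun a ha hr => C.inj_curve ha hr
  refine ⟨hinj, C.bij_curve, fun D P hP hS => ?_, ?_⟩
  · obtain ⟨w⟩ := hS
    exact D.bij hP w
  intro H _ _ N P m q hm hq hP hI
  obtain ⟨w⟩ := hI
  refine ⟨w.half hP.step inf_le_right hinj, w.iff_finrank hP.step inf_le_right hinj,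
    fun hB => w.stepIso N hP.step hB, ?_⟩
  intro S D' hD hI' hs
  obtain ⟨w'⟩ := hI'
  have hs' : StepIso N P q q := w'.stepIso N hP.step (D'.bij_harm hD m)
  have hall : ∀ e : ℕ, m ≤ e → StepIso N P q e := by
    intro e he
    rcases Nat.lt_or_ge e q with h | h
    · have : e = m := by omega
      subst this
      exact hs
    · exact hP.all_of hs' e h
  refine ⟨hall, fun h2 => (outer_of hP m hm hall).2.2 fun e h1 h3 => ?_⟩
  omega

end Pool.Agent.Results.MP_f8720a_ag.PenultimateStep
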