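import Pool.Agent.Lib.MP_f8720a_ag.ST.Data
import Pool.Agent.Lib.MP_f8720a_ag.ST.Row
import Pool.Agent.Lib.MP_f8720a_ag.ST.RosRow
import Pool.Agent.Lib.MP_f8720a_ag.ST.FrobEx

/-!
# The step `e = q - 2` and lower steps of the monodromy-weight conjecture over a log point

`ST.ToRow`: the terms of (2) are a good row. `ST.RosRow`: Rosati data give a good row. `ST.Ex`: an
example with `M = 0`. `ST.FrobEx`: an example with `M ≠ 0`.
-/

namespace Pool.Agent.Results.MP_f8720a_ag.SurfaceStep

open Pool.Agent.MP_f8720a_ag

/-- **Steps `e ≤ q - 2` of the monodromy-weight conjecture**, `q ≤ d`.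

(1) Any step `e = m + 1`, `e = q - i`, `i ≥ 2` (`Row`). Let the restrictions to the strata `Z` of
`K (m + 1)` of the cohomology of degree `i` of the strata `T` of `K m` be spanned by classes
`A ^ (i / 2 - 1) . t`, `t` a class of divisors (`i` even), or `A ^ ((i - 1) / 2) . u`, `u` in
`H¹(T)` (`i` odd), and a part with Frobenius eigenvalues of multiplicity one (`Good`). Then the
identity induces an injective map `E_2^{-e,q+e} → E_2^{e,q-e}`, and it is bijective if and only if
`LefInj`, a condition which is automatic for `q = d`. So for `H = H^q` with the graded pieces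
`gr_(q+e)` and `gr_(q-e)` given by these terms, `N ^ e` is injective between them, and it is an
isomorphism if `LefInj`.

(2) The same for `e = q - 2` with explicit terms, `q = j + 3`: the second cohomology of the strata
of `K j` is spanned by classes of divisors and a part with Frobenius eigenvalues of multiplicity
one.

(3) If the step `q - 2` holds in the situation of (2), the outer graded pieces are given by the
polarised strata datum (the step `q`) and by Rosati data (the step `q - 1`), and those of the steps
`r < e' < q - 2` by terms as in (1), then all steps `e' > r` hold. In particular `P` is the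
monodromy filtration of `N` if `r = 0`. -/
theorem result :
    ∀ (S : Strata) (D : Numbers S), D.IsPolarised → ∀ (F : Type) [Field F] [CharZero F],
      (∀ (m : ℕ) (O : Row F), O.Good D m → Inj2 O.topKer O.im O.ker O.botIm ∧
        (O.LefInj ↔ Bij2 O.topKer O.im O.ker O.botIm) ∧
        ∀ (H : Type) [AddCommGroup H] [Module F H] (N : Module.End F H)
          (P : ℤ → Submodule F H) (q : ℕ), IsWeight N q P →
          Nonempty (Induces2 N P q (m + 1) O.topKer O.im O.ker O.botIm) →
          StepInj N P q (m + 1) ∧ (O.LefInj → StepIso N P q (m + 1))) ∧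
      ∀ (j : ℕ) (C : Classes D j) (C' : Classes D (j + 1)) (R : Restr C C')
        (X : CohData F C C') (M : Submodule F X.HS') (Y : Ends X), X.Laws R → X.Tate M →
        (M = ⊥ ∨ X.Frob M) →
        Inj2 Y.topKer X.topIm Y.botKer X.botIm ∧
        (Y.LefInj ↔ Bij2 Y.topKer X.topIm Y.botKer X.botIm) ∧
        ∀ (H : Type) [AddCommGroup H] [Module F H] (N : Module.End F H)
          (P : ℤ → Submodule F H) (q e : ℕ), q = j + 3 → e = j + 1 → IsWeight N q P →
          Nonempty (Induces2 N P q e Y.topKer X.topIm Y.botKer X.botIm) →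
          StepInj N P q e ∧ (Y.LefInj → StepIso N P q e) ∧
          (StepIso N P q e → Nonempty (OuterData N P q D (j + 2)) → ∀ r ≤ j,
            (∀ m, r ≤ m → m < j → ∃ O : Row F, O.Good D m ∧ O.LefInj ∧
              Nonempty (Induces2 N P q (m + 1) O.topKer O.im O.ker O.botIm)) →
            (∀ e' : ℕ, r < e' → StepIso N P q e') ∧ (r = 0 → IsMonodromy N q P)) := by
  intro S D hD F _ _
  refine ⟨fun m O hO => ⟨Row.inj hD hO, Row.bij hD hO, ?_⟩, ?_⟩
  · rintro H _ _ N P q hP ⟨w⟩
    exact ⟨w.half hP.step (Row.inj hD hO),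
      fun hL => w.stepIso hP.step ((Row.bij hD hO).1 hL)⟩
  intro j C C' R X M Y hX hM hM'
  have hinj : Inj2 Y.topKer X.topIm Y.botKer X.botIm := Ends.inj (X := Coh.of X hX hM hM') Y hD
  have hbij : Y.LefInj ↔ Bij2 Y.topKer X.topIm Y.botKer X.botIm :=
    Ends.bij_iff (X := Coh.of X hX hM hM') Y hD
  refine ⟨hinj, hbij, ?_⟩
  intro H _ _ N P q e hq he hP hI
  obtain ⟨w⟩ := hI
  refine ⟨w.half hP.step hinj, fun hL => w.stepIso hP.step (hbij.1 hL), ?_⟩
  rintro h1 ⟨h2⟩ r hr hrow
  have hall : ∀ e' : ℕ, r < e' → StepIso N P q e' := by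
    intro e' he'
    rcases Nat.lt_trichotomy e' e with h | h | h
    · obtain ⟨O, hO, hL, ⟨w'⟩⟩ := hrow (e' - 1) (by omega) (by omega)
      have h3 : e' - 1 + 1 = e' := by omega
      rw [h3] at w'
      exact w'.stepIso hP.step ((Row.bij hD hO).1 hL)
    · subst h
      exact h1
    · exact h2.all hP hD (by omega) e' (by omega)
  refine ⟨hall, fun h3 => ?_⟩
  have hout := outer_of hP 1 le_rfl fun e' he' => hall e' (by omega)
  exact hout.2.2 fun e' _ _ => by omega

end Pool.Agent.Results.MP_f8720a_ag.SurfaceStep
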